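import Pool.Agent.W312.TP.Stm

/-!
# Tree t-spanners of path graphs: polynomial time of the gadget list
-/

set_option autoImplicit false

namespace Pool.Agent.W315.TP

open Pool.Agent.NPC Pool.Agent.H673R2 Pool.Agent.H673R2.Ts Pool.Agent.W312.TP

section

variable {α : Type} [TEnc α] {φ : α → List (Lit ℕ × Lit ℕ × Lit ℕ)} {l j : α → ℕ}

theorem u_nv (h : Poly φ) : UPoly (fun a => nv (φ a)) :=
  UPoly.mul (UPoly.const 3) (UPoly.length h)

theorem p_yv (h : Poly φ) (hl : Poly l) (hj : Poly j) : Poly (fun a => yv (φ a) (l a) (j a)) :=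
  NPC.Poly.mul (NPC.Poly.const 2) (NPC.Poly.add (u_nv h).toPoly
    (NPC.Poly.add (NPC.Poly.mul hl (NPC.Poly.length h)) hj))

theorem p_wv (h : Poly φ) (hl : Poly l) (hj : Poly j) : Poly (fun a => wv (φ a) (l a) (j a)) :=
  NPC.Poly.mul (NPC.Poly.const 2) (NPC.Poly.add
    (NPC.Poly.add (u_nv h).toPoly
      (NPC.Poly.mul (NPC.Poly.mul (NPC.Poly.const 2) (u_nv h).toPoly) (NPC.Poly.length h)))
    (NPC.Poly.add (NPC.Poly.mul hl (NPC.Poly.length h)) hj))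

theorem p_hd (h : Poly φ) (hl : Poly l) (hj : Poly j) : Poly (fun a => hd (φ a) (l a) (j a)) :=
  NPC.Poly.ite (p := fun a => j a = 0) (NPC.Poly.decide_eq hj (NPC.Poly.const 0)) hl
    (NPC.Poly.add (p_wv h hl (NPC.Poly.sub hj (NPC.Poly.const 1))) (NPC.Poly.const 1))

theorem p_lit {x : α → Lit ℕ} (hx : Poly x) : Poly (fun a => lit (x a)) :=
  NPC.Poly.ite (p := fun a => (x a).1 = true) (NPC.Poly.decide_bool (NPC.Poly.fst hx))
    (NPC.Poly.mul (NPC.Poly.const 2) (NPC.Poly.snd hx))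
    (NPC.Poly.add (NPC.Poly.mul (NPC.Poly.const 2) (NPC.Poly.snd hx)) (NPC.Poly.const 1))

end

theorem proof_SATPOLY : SATPOLY := by
  constructor
  · have hn : UPoly (fun φ : List (Lit ℕ × Lit ℕ × Lit ℕ) => nv φ) := u_nv NPC.Poly.id
    exact UPoly.add hn (UPoly.mul (UPoly.mul (UPoly.const 4) hn) (UPoly.length NPC.Poly.id))
  · have hn : UPoly (fun φ : List (Lit ℕ × Lit ℕ × Lit ℕ) => nv φ) := u_nv NPC.Poly.id
    refine NPC.Poly.append ?_ ?_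
    · refine NPC.Poly.flatMap (F := fun (φ : List (Lit ℕ × Lit ℕ × Lit ℕ)) (l : ℕ) =>
        (List.range φ.length).map fun j => ((false, hd φ l j, yv φ l j, wv φ l j) : Gad))
        (UPoly.mul (UPoly.const 2) hn).range ?_
      refine NPC.Poly.map (F := fun (p : List (Lit ℕ × Lit ℕ × Lit ℕ) × ℕ) (j : ℕ) =>
        ((false, hd p.1 p.2 j, yv p.1 p.2 j, wv p.1 p.2 j) : Gad))
        (UPoly.length (NPC.Poly.fst NPC.Poly.id)).range ?_
      have h1 : Poly (fun q : (List (Lit ℕ × Lit ℕ × Lit ℕ) × ℕ) × ℕ => q.1.1) :=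
        NPC.Poly.fst (NPC.Poly.fst NPC.Poly.id)
      have h2 : Poly (fun q : (List (Lit ℕ × Lit ℕ × Lit ℕ) × ℕ) × ℕ => q.1.2) :=
        NPC.Poly.snd (NPC.Poly.fst NPC.Poly.id)
      have h3 : Poly (fun q : (List (Lit ℕ × Lit ℕ × Lit ℕ) × ℕ) × ℕ => q.2) :=
        NPC.Poly.snd NPC.Poly.id
      exact NPC.Poly.pair (NPC.Poly.const false) (NPC.Poly.pair (p_hd h1 h2 h3)
        (NPC.Poly.pair (p_yv h1 h2 h3) (p_wv h1 h2 h3)))
    · refine NPC.Poly.map (F := fun (φ : List (Lit ℕ × Lit ℕ × Lit ℕ))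
        (c : (Lit ℕ × Lit ℕ × Lit ℕ) × ℕ) => ((true, yv φ (lit c.1.1) c.2 + 1,
          yv φ (lit c.1.2.1) c.2 + 1, yv φ (lit c.1.2.2) c.2 + 1) : Gad))
        (NPC.Poly.zipIdx NPC.Poly.id) ?_
      have h1 : Poly (fun q : List (Lit ℕ × Lit ℕ × Lit ℕ) × ((Lit ℕ × Lit ℕ × Lit ℕ) × ℕ) => q.1) :=
        NPC.Poly.fst NPC.Poly.id
      have h2 : Poly (fun q : List (Lit ℕ × Lit ℕ × Lit ℕ) × ((Lit ℕ × Lit ℕ × Lit ℕ) × ℕ) =>
        q.2.2) := NPC.Poly.snd (NPC.Poly.snd NPC.Poly.id)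
      have h3 : Poly (fun q : List (Lit ℕ × Lit ℕ × Lit ℕ) × ((Lit ℕ × Lit ℕ × Lit ℕ) × ℕ) =>
        q.2.1) := NPC.Poly.fst (NPC.Poly.snd NPC.Poly.id)
      exact NPC.Poly.pair (NPC.Poly.const true) (NPC.Poly.pair
        (NPC.Poly.add (p_yv h1 (p_lit (NPC.Poly.fst h3)) h2) (NPC.Poly.const 1))
        (NPC.Poly.pair
          (NPC.Poly.add (p_yv h1 (p_lit (NPC.Poly.fst (NPC.Poly.snd h3))) h2) (NPC.Poly.const 1))
          (NPC.Poly.add (p_yv h1 (p_lit (NPC.Poly.snd (NPC.Poly.snd h3))) h2)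
            (NPC.Poly.const 1))))

end Pool.Agent.W315.TP
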